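import Pool.Agent.H19.UG.Count

/-!
The class of graphs without `K_4` minor has no subgraph-universal sequence of polynomial order
consisting of graphs without `K_5` minor.
-/

namespace Pool.Agent.Results.MP_5eace2_co.NoPolynomialOrder

open Pool.Agent.H19.UG

/-- `G` has no minor isomorphic to the complete graph on `t` vertices. -/
def CompleteMinorFree {V : Type} (t : ℕ) (G : SimpleGraph V) : Prop := ¬ HasCompleteMinor G t

/-- The sequence `U 1, U 2, ...` is subgraph-universal for the class of `K_4`-minor-free graphs: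
for every `n`, every `K_4`-minor-free graph on `n` vertices is isomorphic to a (not necessarily
induced) subgraph of `U n`. -/
def SubgraphUniversal {W : ℕ → Type} (U : ∀ n, SimpleGraph (W n)) : Prop :=
  ∀ n ≥ 1, ∀ G : SimpleGraph (Fin n), CompleteMinorFree 4 G → G.IsContained (U n)

/-- The graphs `U n` have at most `n ^ C` vertices, for some constant `C` and all `n ≥ 2`. -/
def PolynomialOrder (W : ℕ → Type) [∀ n, Fintype (W n)] : Prop :=
  ∃ C : ℝ, ∀ n : ℕ, 2 ≤ n → (Fintype.card (W n) : ℝ) ≤ (n : ℝ) ^ C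

/-- There is no sequence `U` of finite graphs which is subgraph-universal for the
`K_4`-minor-free graphs, has polynomial order, and consists of `K_5`-minor-free graphs. -/
theorem result :
    ¬ ∃ (W : ℕ → Type) (_ : ∀ n, Fintype (W n)) (U : ∀ n, SimpleGraph (W n)),
      SubgraphUniversal U ∧ PolynomialOrder W ∧ ∀ n ≥ 1, CompleteMinorFree 5 (U n) := by
  rintro ⟨W, _, U, huniv, ⟨C, hC⟩, hfree⟩
  obtain ⟨n, hn, h⟩ := superpolynomial ⌈C⌉₊
  have h1 := h (W n) (U n) (hfree n (by omega)) (huniv n (by omega))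
  have h2 := hC n hn
  have hn1 : (1 : ℝ) ≤ n := by exact_mod_cast (by omega : 1 ≤ n)
  have h3 : (n : ℝ) ^ C ≤ (n : ℝ) ^ (⌈C⌉₊ : ℝ) := Real.rpow_le_rpow_of_exponent_le hn1 (Nat.le_ceil C)
  rw [Real.rpow_natCast] at h3
  have h4 : (Fintype.card (W n) : ℝ) ≤ ((n ^ ⌈C⌉₊ : ℕ) : ℝ) := by
    push_cast
    exact h2.trans h3
  have h5 : Fintype.card (W n) ≤ n ^ ⌈C⌉₊ := by exact_mod_cast h4
  rw [Nat.card_eq_fintype_card] at h1
  omega

end Pool.Agent.Results.MP_5eace2_co.NoPolynomialOrder
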